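import Pool.Agent.Y473.FK.Alg
import Pool.Agent.Y486.FK.Amb1
import Pool.Agent.Y688.FK.Amb2
import Pool.Agent.Y629.FK.Sq
import Pool.Agent.Y168.FK.Leg

/-!
# Project SLX (helper637): the number of the elements of order dividing four of the class group
-/

set_option autoImplicit false

namespace Pool.Agent.N187.SLX

open Pool.Agent.Y755.FK (Rn S_AMB1 S_AMB S_SQ S_LEG)
open Pool.Agent.Y473.FK.Alg (Rep)
open NumberField

/-- the number of the elements killed by four in a finite abelian group -/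
theorem card_four (G : Type*) [CommGroup G] [Finite G] :
    Nat.card {c : G // c ^ 4 = 1} =
      Nat.card {c : G // c ^ 2 = 1} * Nat.card {y : G // ∃ x : G, x ^ 4 = 1 ∧ x ^ 2 = y} := by
  set H : Subgroup G := (powMonoidHom 4 : G →* G).ker with hH
  have memH : ∀ c : G, c ∈ H ↔ c ^ 4 = 1 := fun c => by
    rw [hH, MonoidHom.mem_ker, powMonoidHom_apply]
  set f : H →* G := (powMonoidHom 2 : G →* G).comp H.subtype with hf
  have e1 : Nat.card {c : G // c ^ 4 = 1} = Nat.card H :=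
    Nat.card_congr (Equiv.subtypeEquivRight fun c => (memH c).symm)
  have e2 : Nat.card {c : G // c ^ 2 = 1} = Nat.card f.ker := by
    refine Nat.card_congr
      { toFun := fun c => ⟨⟨c.1, (memH _).2 ?_⟩, ?_⟩
        invFun := fun c => ⟨c.1.1, ?_⟩
        left_inv := fun c => rfl
        right_inv := fun c => rfl }
    · have h : c.1 ^ 4 = (c.1 ^ 2) ^ 2 := by rw [← pow_mul]
      rw [h, c.2, one_pow]
    · rw [MonoidHom.mem_ker]
      exact c.2
    · have := c.2
      rw [MonoidHom.mem_ker] at this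
      exact this
  have e3 : Nat.card {y : G // ∃ x : G, x ^ 4 = 1 ∧ x ^ 2 = y} = Nat.card f.range := by
    refine Nat.card_congr (Equiv.subtypeEquivRight fun y => ?_)
    constructor
    · rintro ⟨x, hx, hy⟩
      exact ⟨⟨x, (memH _).2 hx⟩, hy⟩
    · rintro ⟨x, hx⟩
      exact ⟨x.1, (memH _).1 x.2, hx⟩
  have e4 : Nat.card (H ⧸ f.ker) = Nat.card f.range :=
    Nat.card_congr (QuotientGroup.quotientKerEquivRange f).toEquiv
  rw [e1, e2, e3, Subgroup.card_eq_card_quotient_mul_card_subgroup f.ker, e4, mul_comm]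

theorem count4 (K : Type) [Field K] [NumberField K] (h2 : Module.finrank ℚ K = 2) (n : ℕ)
    (hn : Squarefree n) (hs : ∃ s : K, s ^ 2 = -(n : K)) [DecidablePred (Rep n)] :
    Nat.card {c : ClassGroup (𝓞 K) // c ^ 4 = 1} * 2 =
      Nat.card {c : ClassGroup (𝓞 K) // c ^ 2 = 1} * ((Rn n).divisors.filter (Rep n)).card := by
  have hA1 : S_AMB1 := Pool.Agent.Y486.FK.t_AMB1
  have hA : S_AMB := Pool.Agent.Y688.FK.t_AMB2 hA1
  have hS : S_SQ := Pool.Agent.Y629.FK.t_SQ
  have hc := Pool.Agent.Y473.FK.Alg.count K hA1 hA hS h2 n hn hs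
  have hc' : ((Rn n).divisors.filter (Rep n)).card = 2 * Nat.card {y : ClassGroup (𝓞 K) //
      ∃ x : ClassGroup (𝓞 K), x ^ 4 = 1 ∧ x ^ 2 = y} := by
    rw [← hc]
    congr
  rw [hc', card_four (ClassGroup (𝓞 K))]
  ring

/-- the condition for `d` -/
def Cd (m d : ℕ) : Prop := ∀ p : ℕ, p.Prime → p ≠ 2 → p ∣ m →
  (if p ∣ d then jacobiSym ((d / p * (m / p) : ℕ) : ℤ) p else jacobiSym d p) = 1

theorem cancel_sq {p b c : ℕ} (h : Nat.Coprime b p) :
    jacobiSym ((b * (b * c) : ℕ) : ℤ) p = jacobiSym c p := by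
  have e : ((b * (b * c) : ℕ) : ℤ) = (b : ℤ) ^ 2 * c := by push_cast; ring
  rw [e, jacobiSym.mul_left, jacobiSym.sq_one' (by rw [Int.gcd_natCast_natCast]; exact h), one_mul]

/-- the two forms of the local conditions, `d ∣ m` -/
theorem cd_iff1 {m b c : ℕ} (hm : Squarefree m) (hbc : b * c = m) : Cd m b ↔
    (∀ p : ℕ, p.Prime → p ≠ 2 → p ∣ c → jacobiSym b p = 1) ∧
      ∀ p : ℕ, p.Prime → p ≠ 2 → p ∣ b → jacobiSym c p = 1 := by
  have hcop : Nat.Coprime b c := by
    rw [← hbc] at hm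
    exact Nat.coprime_of_squarefree_mul hm
  have hbs : Squarefree b := hm.squarefree_of_dvd ⟨c, hbc.symm⟩
  have key : ∀ p : ℕ, p.Prime → p ∣ b →
      jacobiSym ((b / p * (m / p) : ℕ) : ℤ) p = jacobiSym c p := by
    intro p hp hpb
    obtain ⟨b', rfl⟩ := hpb
    have e1 : p * b' / p = b' := Nat.mul_div_cancel_left _ hp.pos
    have e2 : m / p = b' * c := by
      rw [← hbc, mul_assoc, Nat.mul_div_cancel_left _ hp.pos]
    rw [e1, e2]
    refine cancel_sq ?_
    exact (Nat.coprime_of_squarefree_mul hbs).symm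
  constructor
  · intro h
    refine ⟨fun p hp h2 hpc => ?_, fun p hp h2 hpb => ?_⟩
    · have h1 := h p hp h2 (hpc.trans ⟨b, by rw [← hbc, mul_comm]⟩)
      rwa [if_neg (fun h3 => hp.one_lt.ne' (Nat.eq_one_of_dvd_coprimes hcop h3 hpc))] at h1
    · have h1 := h p hp h2 (hpb.trans ⟨c, hbc.symm⟩)
      rwa [if_pos hpb, key p hp hpb] at h1
  · rintro ⟨h1, h3⟩ p hp h2 hpm
    by_cases hpb : p ∣ b
    · rw [if_pos hpb, key p hp hpb]
      exact h3 p hp h2 hpb
    · rw [if_neg hpb]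
      rw [← hbc] at hpm
      exact h1 p hp h2 ((hp.dvd_mul.1 hpm).resolve_left hpb)

/-- the two forms of the local conditions, `d = 2 b` -/
theorem cd_iff2 {m b c : ℕ} (hm : Squarefree m) (ho : Odd m) (hbc : b * c = m) : Cd m (2 * b) ↔
    (∀ p : ℕ, p.Prime → p ∣ c → jacobiSym (2 * b) p = 1) ∧
      ∀ p : ℕ, p.Prime → p ∣ b → jacobiSym (2 * c) p = 1 := by
  have hcop : Nat.Coprime b c := by
    rw [← hbc] at hm
    exact Nat.coprime_of_squarefree_mul hm
  have hbs : Squarefree b := hm.squarefree_of_dvd ⟨c, hbc.symm⟩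
  have h2m : ∀ p : ℕ, p ∣ m → p ≠ 2 := by
    rintro p hpm rfl
    rw [← Nat.not_even_iff_odd, even_iff_two_dvd] at ho
    exact ho hpm
  have hd : ∀ p : ℕ, p.Prime → p ≠ 2 → (p ∣ 2 * b ↔ p ∣ b) := by
    intro p hp h2
    refine ⟨fun h => ?_, fun h => h.mul_left 2⟩
    rcases hp.dvd_mul.1 h with h3 | h3
    · exact absurd ((Nat.prime_dvd_prime_iff_eq hp Nat.prime_two).1 h3) h2
    · exact h3
  have key : ∀ p : ℕ, p.Prime → p ∣ b →
      jacobiSym ((2 * b / p * (m / p) : ℕ) : ℤ) p = jacobiSym (2 * c) p := by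
    intro p hp hpb
    obtain ⟨b', rfl⟩ := hpb
    have e1 : 2 * (p * b') / p = 2 * b' := by
      rw [show 2 * (p * b') = p * (2 * b') by ring, Nat.mul_div_cancel_left _ hp.pos]
    have e2 : m / p = b' * c := by
      rw [← hbc, mul_assoc, Nat.mul_div_cancel_left _ hp.pos]
    rw [e1, e2]
    have e3 : 2 * b' * (b' * c) = b' * (b' * (2 * c)) := by ring
    rw [e3, cancel_sq (Nat.coprime_of_squarefree_mul hbs).symm]
    push_cast
    rfl
  constructor
  · intro h
    refine ⟨fun p hp hpc => ?_, fun p hp hpb => ?_⟩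
    · have hpm : p ∣ m := hpc.trans ⟨b, by rw [← hbc, mul_comm]⟩
      have h2 := h2m p hpm
      have h1 := h p hp h2 hpm
      rw [if_neg (fun h3 => hp.one_lt.ne'
        (Nat.eq_one_of_dvd_coprimes hcop ((hd p hp h2).1 h3) hpc))] at h1
      exact_mod_cast h1
    · have hpm : p ∣ m := hpb.trans ⟨c, hbc.symm⟩
      have h2 := h2m p hpm
      have h1 := h p hp h2 hpm
      rw [if_pos ((hd p hp h2).2 hpb), key p hp hpb] at h1
      exact h1
  · rintro ⟨h1, h3⟩ p hp h2 hpm
    by_cases hpb : p ∣ b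
    · rw [if_pos ((hd p hp h2).2 hpb), key p hp hpb]
      exact h3 p hp hpb
    · rw [if_neg (fun h => hpb ((hd p hp h2).1 h))]
      rw [← hbc] at hpm
      have := h1 p hp ((hp.dvd_mul.1 hpm).resolve_left hpb)
      exact_mod_cast this

/-- the representations -/
theorem rep_iff {m : ℕ} (hm : Squarefree m) {d : ℕ} (hd : d ∣ Rn m) : Rep m d ↔ Cd m d := by
  have hL : S_LEG := Pool.Agent.Y168.FK.t_LEG
  have h1 : ∀ b c : ℕ, b * c = m → (Rep m b ↔ Cd m b) := by
    intro b c hbc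
    have h := hL.1 b c (by rw [hbc]; exact hm)
    rw [hbc] at h
    exact h.trans (cd_iff1 hm hbc).symm
  by_cases h4 : m % 4 = 1
  · have hR : Rn m = 2 * m := by unfold Rn; rw [if_pos h4]
    have ho : Odd m := Nat.odd_iff.2 (by omega)
    rw [hR] at hd
    rcases Nat.even_or_odd d with he | hod
    · obtain ⟨b, hb⟩ := even_iff_two_dvd.1 he
      subst hb
      obtain ⟨c, hc⟩ := Nat.dvd_of_mul_dvd_mul_left (by norm_num : 0 < 2) hd
      have h := hL.2 b c (by rw [← hc]; exact hm) (by rw [← hc]; exact ho)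
      rw [← hc] at h
      exact h.trans (cd_iff2 hm ho hc.symm).symm
    · have hdm : d ∣ m := (Nat.Coprime.dvd_of_dvd_mul_left
        (Nat.coprime_two_right.2 hod) hd)
      obtain ⟨c, hc⟩ := hdm
      exact h1 d c hc.symm
  · have hR : Rn m = m := by unfold Rn; rw [if_neg h4]
    rw [hR] at hd
    obtain ⟨c, hc⟩ := hd
    exact h1 d c hc.symm

end Pool.Agent.N187.SLX
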