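import Mathlib

/-!
# Project SLX (helper637): the symbols and the divisors
-/

set_option autoImplicit false

open scoped Classical

namespace Pool.Agent.N187.SLX.Sym

open Finset

/-- one if `n` is not a square modulo `p` -/
noncomputable def nr (p n : ℕ) : ZMod 2 := if IsSquare (n : ZMod p) then 0 else 1

/-- one if the prime is `3` modulo `4` -/
def uu (p : ℕ) : ZMod 2 := if p % 4 = 3 then 1 else 0

/-- the divisor -/
noncomputable def Dy (V : Finset ℕ) (y : {x // x ∈ V} → ZMod 2) : ℕ :=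
  ∏ p : {x // x ∈ V}, if y p = 1 then p.1 else 1

theorem dvd_Dy {V : Finset ℕ} (hV : ∀ p ∈ V, p.Prime) (y : {x // x ∈ V} → ZMod 2)
    (q : {x // x ∈ V}) : q.1 ∣ Dy V y ↔ y q = 1 := by
  have hq := hV q.1 q.2
  unfold Dy
  rw [Prime.dvd_finsetProd_iff hq.prime]
  constructor
  · rintro ⟨p, -, hp⟩
    by_cases h : y p = 1
    · rw [if_pos h, Nat.prime_dvd_prime_iff_eq hq (hV p.1 p.2)] at hp
      rwa [show q = p from Subtype.ext hp]
    · rw [if_neg h] at hp
      exact absurd (Nat.dvd_one.1 hp) hq.one_lt.ne'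
  · intro h
    exact ⟨q, mem_univ _, by rw [if_pos h]⟩

theorem Dy_dvd (V : Finset ℕ) (y : {x // x ∈ V} → ZMod 2) : Dy V y ∣ ∏ p ∈ V, p := by
  have e : ∏ p ∈ V, p = ∏ p : {x // x ∈ V}, p.1 := (Finset.prod_coe_sort V (fun p => p)).symm
  rw [e]
  unfold Dy
  refine Finset.prod_dvd_prod_of_dvd _ _ fun p _ => ?_
  by_cases h : y p = 1
  · rw [if_pos h]
  · rw [if_neg h]; exact one_dvd _

theorem sqf {V : Finset ℕ} (hV : ∀ p ∈ V, p.Prime) : Squarefree (∏ p ∈ V, p) := by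
  induction V using Finset.induction_on with
  | empty => simp
  | insert a S ha ih =>
    rw [Finset.prod_insert ha, Nat.squarefree_mul_iff]
    have hV' : ∀ p ∈ S, p.Prime := fun p hp => hV p (mem_insert_of_mem hp)
    have hap := hV a (mem_insert_self _ _)
    refine ⟨?_, hap.squarefree, ih hV'⟩
    refine Nat.Coprime.prod_right fun p hp => ?_
    rw [Nat.coprime_primes hap (hV' p hp)]
    rintro rfl
    exact ha hp

theorem Dy_inj {V : Finset ℕ} (hV : ∀ p ∈ V, p.Prime) (y z : {x // x ∈ V} → ZMod 2)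
    (h : Dy V y = Dy V z) : y = z := by
  funext q
  have h1 : y q = 1 ↔ z q = 1 := by rw [← dvd_Dy hV, ← dvd_Dy hV, h]
  have key : ∀ a b : ZMod 2, (a = 1 ↔ b = 1) → a = b := by decide
  exact key _ _ h1

theorem Dy_surj {V : Finset ℕ} (hV : ∀ p ∈ V, p.Prime) {d : ℕ} (hd : d ∣ ∏ p ∈ V, p) :
    ∃ y : {x // x ∈ V} → ZMod 2, Dy V y = d := by
  refine ⟨fun p => if p.1 ∣ d then 1 else 0, ?_⟩
  set y : {x // x ∈ V} → ZMod 2 := fun p => if p.1 ∣ d then 1 else 0 with hy
  have hs := sqf hV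
  have h1 : Squarefree d := hs.squarefree_of_dvd hd
  have h2 : Squarefree (Dy V y) := hs.squarefree_of_dvd (Dy_dvd V y)
  have hmem : ∀ p : ℕ, p.Prime → p ∣ ∏ p ∈ V, p → p ∈ V := by
    intro p hp hpd
    rw [Prime.dvd_finsetProd_iff hp.prime] at hpd
    obtain ⟨q, hq, hpq⟩ := hpd
    rw [Nat.prime_dvd_prime_iff_eq hp (hV q hq)] at hpq
    rwa [hpq]
  rw [← Nat.prod_primeFactors_of_squarefree h1, ← Nat.prod_primeFactors_of_squarefree h2]
  refine Finset.prod_congr ?_ fun _ _ => rfl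
  ext p
  rw [Nat.mem_primeFactors, Nat.mem_primeFactors]
  constructor
  · rintro ⟨hp, hpd, -⟩
    have hpV := hmem p hp (hpd.trans (Dy_dvd V y))
    have := (dvd_Dy hV y ⟨p, hpV⟩).1 hpd
    refine ⟨hp, ?_, h1.ne_zero⟩
    by_contra h3
    rw [hy] at this
    simp only [if_neg h3] at this
    exact absurd this (by decide)
  · rintro ⟨hp, hpd, -⟩
    have hpV := hmem p hp (hpd.trans hd)
    refine ⟨hp, (dvd_Dy hV y ⟨p, hpV⟩).2 ?_, h2.ne_zero⟩
    rw [hy]
    simp only [if_pos hpd]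

theorem card_bij' {V : Finset ℕ} (hV : ∀ p ∈ V, p.Prime) (P : ({x // x ∈ V} → ZMod 2) → Prop)
    (Q : ℕ → Prop) [DecidablePred P] [DecidablePred Q] (hPQ : ∀ y, P y ↔ Q (Dy V y)) :
    (univ.filter P).card = ((∏ p ∈ V, p).divisors.filter Q).card := by
  refine Finset.card_bij (fun y _ => Dy V y) ?_ ?_ ?_
  · intro y hy
    rw [mem_filter] at hy ⊢
    exact ⟨Nat.mem_divisors.2 ⟨Dy_dvd V y, (sqf hV).ne_zero⟩, (hPQ y).1 hy.2⟩
  · intro y _ z _ h
    exact Dy_inj hV y z h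
  · intro d hd
    rw [mem_filter, Nat.mem_divisors] at hd
    obtain ⟨y, hy⟩ := Dy_surj hV hd.1.1
    refine ⟨y, ?_, hy⟩
    rw [mem_filter]
    exact ⟨mem_univ _, (hPQ y).2 (by rw [hy]; exact hd.2)⟩

/-! ### symbols -/

theorem nr_one (p : ℕ) : nr p 1 = 0 := by
  unfold nr
  rw [if_pos (by rw [Nat.cast_one]; exact ⟨1, by ring⟩)]

theorem nr_self (p : ℕ) : nr p p = 0 := by
  unfold nr
  rw [if_pos (by rw [ZMod.natCast_self]; exact ⟨0, by ring⟩)]

theorem nr_iff {p : ℕ} (hp : p.Prime) {a : ℕ} (ha : ¬ p ∣ a) : nr p a = 0 ↔ jacobiSym a p = 1 := by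
  have := Fact.mk hp
  have ha' : ((a : ℤ) : ZMod p) ≠ 0 := by
    rw [Int.cast_natCast, Ne, ZMod.natCast_eq_zero_iff]
    exact ha
  rw [← jacobiSym.legendreSym.to_jacobiSym, legendreSym.eq_one_iff p ha', Int.cast_natCast]
  unfold nr
  by_cases h : IsSquare (a : ZMod p)
  · rw [if_pos h]; simp [h]
  · rw [if_neg h]; simp [h]

theorem jac_ne {p : ℕ} (hp : p.Prime) {a : ℕ} (ha : ¬ p ∣ a) :
    jacobiSym a p = 1 ∨ jacobiSym a p = -1 := by
  have := Fact.mk hp
  have ha' : ((a : ℤ) : ZMod p) ≠ 0 := by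
    rw [Int.cast_natCast, Ne, ZMod.natCast_eq_zero_iff]
    exact ha
  rw [← jacobiSym.legendreSym.to_jacobiSym]
  exact legendreSym.eq_one_or_neg_one p ha'

theorem nr_mul {p : ℕ} (hp : p.Prime) {a b : ℕ} (ha : ¬ p ∣ a) (hb : ¬ p ∣ b) :
    nr p (a * b) = nr p a + nr p b := by
  have hab : ¬ p ∣ a * b := fun h => (hp.dvd_mul.1 h).elim ha hb
  have h1 := nr_iff hp ha
  have h2 := nr_iff hp hb
  have h3 := nr_iff hp hab
  rw [Nat.cast_mul, jacobiSym.mul_left] at h3
  have key : ∀ x y z : ZMod 2, (z = 0 ↔ (x = 0 ↔ y = 0)) → z = x + y := by decide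
  apply key
  rw [h1, h2, h3]
  rcases jac_ne hp ha with h4 | h4 <;> rcases jac_ne hp hb with h5 | h5 <;> rw [h4, h5] <;> norm_num

theorem nr_prod {p : ℕ} (hp : p.Prime) {ι : Type*} (s : Finset ι) (f : ι → ℕ)
    (hf : ∀ i ∈ s, ¬ p ∣ f i) : nr p (∏ i ∈ s, f i) = ∑ i ∈ s, nr p (f i) := by
  induction s using Finset.induction_on with
  | empty => simp [nr_one]
  | insert a s ha ih =>
    rw [Finset.prod_insert ha, Finset.sum_insert ha, nr_mul hp (hf a (mem_insert_self _ _)),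
      ih fun i hi => hf i (mem_insert_of_mem hi)]
    rw [Prime.dvd_finsetProd_iff hp.prime]
    rintro ⟨i, hi, h⟩
    exact hf i (mem_insert_of_mem hi) h

theorem nr_recip {p q : ℕ} (hp : p.Prime) (hq : q.Prime) (hp2 : p ≠ 2) (hq2 : q ≠ 2) (hpq : p ≠ q) :
    nr q p = nr p q + uu p * uu q := by
  have := Fact.mk hp
  have := Fact.mk hq
  have mod4 : ∀ r : ℕ, r.Prime → r ≠ 2 → r % 4 = 1 ∨ r % 4 = 3 := by
    intro r hr hr2
    have := hr.eq_two_or_odd.resolve_left hr2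
    omega
  unfold nr uu
  rcases mod4 p hp hp2 with h | h
  · rw [if_neg (by omega : ¬ p % 4 = 3), zero_mul, add_zero]
    have := ZMod.exists_sq_eq_prime_iff_of_mod_four_eq_one (p := p) (q := q) h hq2
    by_cases h3 : IsSquare (q : ZMod p)
    · rw [if_pos h3, if_pos (this.1 h3)]
    · rw [if_neg h3, if_neg (fun h4 => h3 (this.2 h4))]
  · rcases mod4 q hq hq2 with h' | h'
    · rw [if_neg (by omega : ¬ q % 4 = 3), mul_zero, add_zero]
      have := ZMod.exists_sq_eq_prime_iff_of_mod_four_eq_one (p := q) (q := p) h' hp2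
      by_cases h3 : IsSquare (q : ZMod p)
      · rw [if_pos h3, if_pos (this.2 h3)]
      · rw [if_neg h3, if_neg (fun h4 => h3 (this.1 h4))]
    · rw [if_pos h, if_pos h', one_mul]
      have := ZMod.exists_sq_eq_prime_iff_of_mod_four_eq_three (p := p) (q := q) h h' hpq
      by_cases h3 : IsSquare (q : ZMod p)
      · rw [if_pos h3, if_neg (this.1 h3)]; decide
      · have h4 : IsSquare (p : ZMod q) := by
          by_contra h4
          exact h3 (this.2 h4)
        rw [if_neg h3, if_pos h4]; decide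

theorem uu_sum {S : Finset ℕ} (hS : ∀ p ∈ S, p.Prime ∧ p ≠ 2) :
    ∑ p ∈ S, uu p = uu (∏ p ∈ S, p) ∧ (∏ p ∈ S, p) % 2 = 1 := by
  induction S using Finset.induction_on with
  | empty => simp [uu]
  | insert a s ha ih =>
    obtain ⟨h1, h2⟩ := ih fun i hi => hS i (mem_insert_of_mem hi)
    rw [Finset.sum_insert ha, Finset.prod_insert ha, h1]
    obtain ⟨hap, ha2⟩ := hS a (mem_insert_self _ _)
    have hao := hap.eq_two_or_odd.resolve_left ha2
    set b := ∏ p ∈ s, p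
    constructor
    · unfold uu
      have ea : a % 4 = 1 ∨ a % 4 = 3 := by omega
      have eb : b % 4 = 1 ∨ b % 4 = 3 := by omega
      rcases ea with ea | ea <;> rcases eb with eb | eb <;>
        rw [Nat.mul_mod, ea, eb] <;> norm_num
      decide
    · rw [Nat.mul_mod, hao, h2]

/-! ### the rows -/

/-- the symbols: `sy r s q p` is the symbol of the prime discriminant `d_p` at `q` -/
noncomputable def sy (r s : ZMod 2) (q p : ℕ) : ZMod 2 :=
  if p = 2 then r * nr q 2 + s * uu q else nr p q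

/-- the primes of the discriminant -/
def Vt (t : Bool) (S : Finset ℕ) : Finset ℕ := if t = true then insert 2 S else S

/-- the odd part or the full product -/
def nn (t : Bool) (r : ZMod 2) (S : Finset ℕ) : ℕ := (if t = true ∧ r = 1 then 2 else 1) * ∏ p ∈ S, p

theorem mem_Vt {t : Bool} {S : Finset ℕ} {p : ℕ} (hp : p ∈ S) : p ∈ Vt t S := by
  unfold Vt
  split_ifs
  · exact mem_insert_of_mem hp
  · exact hp

theorem prime_Vt {t : Bool} {S : Finset ℕ} (hS : ∀ p ∈ S, p.Prime ∧ p ≠ 2) :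
    ∀ p ∈ Vt t S, p.Prime := by
  intro p hp
  unfold Vt at hp
  split_ifs at hp
  · rcases mem_insert.1 hp with rfl | hp
    · exact Nat.prime_two
    · exact (hS p hp).1
  · exact (hS p hp).1

theorem two_not {S : Finset ℕ} (hS : ∀ p ∈ S, p.Prime ∧ p ≠ 2) : 2 ∉ S := fun h => (hS 2 h).2 rfl

/-- the sum of the symbols in the column -/
theorem col {t : Bool} {r s : ZMod 2} {S : Finset ℕ} (hS : ∀ p ∈ S, p.Prime ∧ p ≠ 2)
    (hu : ∑ q ∈ S, uu q = 1 + if t = true then s else 0) {p : ℕ} (hp : p ∈ S) :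
    ∑ q ∈ Vt t S, sy r s p q = nr p (nn t r S / p) := by
  obtain ⟨hpp, hp2⟩ := hS p hp
  have e1 : ∑ q ∈ S, sy r s p q = ∑ q ∈ S, nr q p := by
    refine Finset.sum_congr rfl fun q hq => ?_
    unfold sy
    rw [if_neg (hS q hq).2]
  have e2 : ∑ q ∈ S, nr q p = ∑ q ∈ S.erase p, nr p q + uu p * ∑ q ∈ S.erase p, uu q := by
    rw [← Finset.add_sum_erase S (fun q => nr q p) hp, nr_self, zero_add, Finset.mul_sum,
      ← Finset.sum_add_distrib]
    refine Finset.sum_congr rfl fun q hq => ?_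
    obtain ⟨h1, h2⟩ := mem_erase.1 hq
    exact nr_recip hpp (hS q h2).1 hp2 (hS q h2).2 (Ne.symm h1)
  have hnd : ∀ q ∈ S.erase p, ¬ p ∣ q := by
    intro q hq h
    obtain ⟨h1, h2⟩ := mem_erase.1 hq
    rw [Nat.prime_dvd_prime_iff_eq hpp (hS q h2).1] at h
    exact h1 h.symm
  have e3 : ∑ q ∈ S.erase p, nr p q = nr p (∏ q ∈ S.erase p, q) :=
    (nr_prod hpp (S.erase p) (fun q => q) hnd).symm
  have e4 : uu p + ∑ q ∈ S.erase p, uu q = 1 + if t = true then s else 0 := by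
    rw [← hu, ← Finset.add_sum_erase S uu hp]
  have hP : ¬ p ∣ ∏ q ∈ S.erase p, q := by
    rw [Prime.dvd_finsetProd_iff hpp.prime]
    rintro ⟨q, hq, h⟩
    exact hnd q hq h
  have e5 : nn t r S / p = (if t = true ∧ r = 1 then 2 else 1) * ∏ q ∈ S.erase p, q := by
    unfold nn
    rw [← Finset.mul_prod_erase S (fun q => q) hp, mul_left_comm, Nat.mul_div_cancel_left _ hpp.pos]
  have h2p : ¬ p ∣ 2 := by
    rw [Nat.prime_dvd_prime_iff_eq hpp Nat.prime_two]
    exact hp2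
  have hue : ∀ u v w : ZMod 2, u + v = 1 + w → u * v = w * u := by decide
  rw [e5]
  rcases Bool.eq_false_or_eq_true t with ht | ht
  · subst ht
    have hV : Vt true S = insert 2 S := by unfold Vt; rw [if_pos rfl]
    rw [hV, Finset.sum_insert (two_not hS), e1, e2, e3]
    rw [if_pos rfl] at e4
    rw [hue _ _ _ e4]
    have h2 : sy r s p 2 = r * nr p 2 + s * uu p := by unfold sy; rw [if_pos rfl]
    rw [h2]
    have hr : ∀ r : ZMod 2, r = 0 ∨ r = 1 := by decide
    rcases hr r with rfl | rfl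
    · rw [if_neg (by rintro ⟨-, h⟩; exact absurd h (by decide)), one_mul]
      have key : ∀ a b c s : ZMod 2, 0 * b + s * c + (a + s * c) = a := by decide
      exact key _ _ _ _
    · rw [if_pos ⟨rfl, rfl⟩, nr_mul hpp h2p hP]
      have key : ∀ a b c s : ZMod 2, 1 * b + s * c + (a + s * c) = b + a := by decide
      exact key _ _ _ _
  · subst ht
    have hV : Vt false S = S := by unfold Vt; rw [if_neg (by simp)]
    rw [if_neg (by simp)] at e4
    rw [hV, e1, e2, e3, hue _ _ _ e4, zero_mul, add_zero, if_neg (by simp), one_mul]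

/-- the row -/
theorem row {t : Bool} {S : Finset ℕ} (hS : ∀ p ∈ S, p.Prime ∧ p ≠ 2)
    (y : {x // x ∈ Vt t S} → ZMod 2) {p : ℕ} (hp : p ∈ S) (r s : ZMod 2) :
    ∑ q : {x // x ∈ Vt t S}, y q * sy r s q.1 p = nr p (if y ⟨p, mem_Vt hp⟩ = 1 then
      Dy (Vt t S) y / p else Dy (Vt t S) y) ∧
      ¬ p ∣ (if y ⟨p, mem_Vt hp⟩ = 1 then Dy (Vt t S) y / p else Dy (Vt t S) y) := by
  obtain ⟨hpp, hp2⟩ := hS p hp
  set P : {x // x ∈ Vt t S} := ⟨p, mem_Vt hp⟩ with hPdef
  have hnd : ∀ q ∈ univ.erase P, ¬ p ∣ (if y q = 1 then q.1 else 1) := by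
    intro q hq h
    obtain ⟨h1, -⟩ := mem_erase.1 hq
    by_cases h3 : y q = 1
    · rw [if_pos h3, Nat.prime_dvd_prime_iff_eq hpp (prime_Vt hS q.1 q.2)] at h
      exact h1 (Subtype.ext h.symm)
    · rw [if_neg h3] at h
      exact hpp.one_lt.ne' (Nat.dvd_one.1 h)
  have hP : ¬ p ∣ ∏ q ∈ univ.erase P, (if y q = 1 then q.1 else 1) := by
    rw [Prime.dvd_finsetProd_iff hpp.prime]
    rintro ⟨q, hq, h⟩
    exact hnd q hq h
  have e : (if y P = 1 then Dy (Vt t S) y / p else Dy (Vt t S) y) =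
      ∏ q ∈ univ.erase P, (if y q = 1 then q.1 else 1) := by
    unfold Dy
    rw [← Finset.mul_prod_erase univ _ (mem_univ P)]
    by_cases h : y P = 1
    · rw [if_pos h, if_pos h, Nat.mul_div_cancel_left _ hpp.pos]
    · rw [if_neg h, if_neg h, one_mul]
  rw [e]
  refine ⟨?_, hP⟩
  rw [nr_prod hpp _ _ hnd, ← Finset.add_sum_erase univ _ (mem_univ P)]
  have h0 : ∀ q : ℕ, sy r s q p = nr p q := by
    intro q
    unfold sy
    rw [if_neg hp2]
  rw [h0, hPdef, nr_self, mul_zero, zero_add]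
  refine Finset.sum_congr rfl fun q _ => ?_
  rw [h0]
  by_cases h : y q = 1
  · rw [h, one_mul, if_pos rfl]
  · have h3 : y q = 0 := by
      have key : ∀ a : ZMod 2, a ≠ 1 → a = 0 := by decide
      exact key _ h
    rw [if_neg h, nr_one, h3, zero_mul]

/-- the left kernel -/
def IsLk {V : Type} [Fintype V] (N : V → V → ZMod 2) (y : V → ZMod 2) : Prop :=
  ∀ p, ∑ q, (y q * N q p + y p * N p q) = 0

/-- the condition for `d` -/
def Cd (m d : ℕ) : Prop := ∀ p : ℕ, p.Prime → p ≠ 2 → p ∣ m →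
  (if p ∣ d then jacobiSym ((d / p * (m / p) : ℕ) : ℤ) p else jacobiSym d p) = 1

theorem lk_row {V : Type} [Fintype V] [DecidableEq V] (N : V → V → ZMod 2) (y : V → ZMod 2) (P : V)
    (h : ∀ p, p ≠ P → ∑ q, (y q * N q p + y p * N p q) = 0) : IsLk N y := by
  intro p
  by_cases hp : p = P
  · subst hp
    have h1 : ∑ a, ∑ q, (y q * N q a + y a * N a q) = 0 := by
      simp_rw [Finset.sum_add_distrib]
      rw [Finset.sum_comm]
      have key : ∀ a : ZMod 2, a + a = 0 := by decide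
      exact key _
    rw [← Finset.add_sum_erase univ _ (mem_univ p)] at h1
    rw [Finset.sum_eq_zero (s := univ.erase p) (fun a ha => h a (mem_erase.1 ha).1), add_zero] at h1
    exact h1
  · exact h p hp

theorem lk_iff {t : Bool} {r s : ZMod 2} {S : Finset ℕ} (hS : ∀ p ∈ S, p.Prime ∧ p ≠ 2)
    (hu : ∑ q ∈ S, uu q = 1 + if t = true then s else 0) (y : {x // x ∈ Vt t S} → ZMod 2) :
    IsLk (fun q p : {x // x ∈ Vt t S} => sy r s q.1 p.1) y ↔ Cd (nn t r S) (Dy (Vt t S) y) := by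
  have hn0 : ∀ p ∈ S, ∃ k, nn t r S = p * k ∧ ¬ p ∣ k := by
    intro p hp
    obtain ⟨hpp, hp2⟩ := hS p hp
    refine ⟨(if t = true ∧ r = 1 then 2 else 1) * ∏ q ∈ S.erase p, q, ?_, ?_⟩
    · unfold nn
      rw [← Finset.mul_prod_erase S (fun q => q) hp, mul_left_comm]
    · intro h
      rcases hpp.dvd_mul.1 h with h | h
      · split_ifs at h
        · rw [Nat.prime_dvd_prime_iff_eq hpp Nat.prime_two] at h
          exact hp2 h
        · exact hpp.one_lt.ne' (Nat.dvd_one.1 h)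
      · rw [Prime.dvd_finsetProd_iff hpp.prime] at h
        obtain ⟨q, hq, h⟩ := h
        obtain ⟨h1, h2⟩ := mem_erase.1 hq
        rw [Nat.prime_dvd_prime_iff_eq hpp (hS q h2).1] at h
        exact h1 h.symm
  have hmem : ∀ p : ℕ, p.Prime → p ≠ 2 → p ∣ nn t r S → p ∈ S := by
    intro p hpp hp2 h
    unfold nn at h
    rcases hpp.dvd_mul.1 h with h | h
    · split_ifs at h
      · rw [Nat.prime_dvd_prime_iff_eq hpp Nat.prime_two] at h
        exact absurd h hp2
      · exact absurd (Nat.dvd_one.1 h) hpp.one_lt.ne'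
    · rw [Prime.dvd_finsetProd_iff hpp.prime] at h
      obtain ⟨q, hq, h⟩ := h
      rw [Nat.prime_dvd_prime_iff_eq hpp (hS q hq).1] at h
      rwa [h]
  have hrow : ∀ (p : ℕ) (hp : p ∈ S), (∑ q : {x // x ∈ Vt t S}, (y q * sy r s q.1 p +
      y ⟨p, mem_Vt hp⟩ * sy r s p q.1) = 0 ↔ (if p ∣ Dy (Vt t S) y then
        jacobiSym ((Dy (Vt t S) y / p * (nn t r S / p) : ℕ) : ℤ) p else
          jacobiSym (Dy (Vt t S) y) p) = 1) := by
    intro p hp
    obtain ⟨hpp, hp2⟩ := hS p hp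
    obtain ⟨k, hk, hpk⟩ := hn0 p hp
    have hdiv : nn t r S / p = k := by rw [hk, Nat.mul_div_cancel_left _ hpp.pos]
    rw [Finset.sum_add_distrib, ← Finset.mul_sum]
    obtain ⟨h1, h2⟩ := row hS y hp r s
    rw [h1, Finset.sum_coe_sort (Vt t S) (fun q => sy r s p q), col hS hu hp, hdiv]
    have h3 := dvd_Dy (prime_Vt hS) y ⟨p, mem_Vt hp⟩
    have h3' : p ∣ Dy (Vt t S) y ↔ y ⟨p, mem_Vt hp⟩ = 1 := h3
    by_cases h4 : y ⟨p, mem_Vt hp⟩ = 1
    · rw [if_pos h4] at h2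
      rw [if_pos h4, if_pos (h3'.2 h4), h4, one_mul, ← nr_mul hpp h2 hpk,
        nr_iff hpp (fun h => (hpp.dvd_mul.1 h).elim h2 hpk)]
    · rw [if_neg h4] at h2
      have h5 : y ⟨p, mem_Vt hp⟩ = 0 := by
        have key : ∀ a : ZMod 2, a ≠ 1 → a = 0 := by decide
        exact key _ h4
      rw [if_neg h4, if_neg (fun h => h4 (h3'.1 h)), h5, zero_mul, add_zero, nr_iff hpp h2]
  constructor
  · intro h p hpp hp2 hpn
    have hp := hmem p hpp hp2 hpn
    exact (hrow p hp).1 (h ⟨p, mem_Vt hp⟩)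
  · intro h
    rcases Bool.eq_false_or_eq_true t with ht | ht
    · subst ht
      have h2V : 2 ∈ Vt true S := by unfold Vt; rw [if_pos rfl]; exact mem_insert_self _ _
      refine lk_row _ _ ⟨2, h2V⟩ ?_
      rintro ⟨p, hpV⟩ hne
      have hp2 : p ≠ 2 := fun h => hne (Subtype.ext h)
      have hp : p ∈ S := by
        have h' := hpV
        unfold Vt at h'
        rw [if_pos rfl] at h'
        exact (mem_insert.1 h').resolve_left hp2
      obtain ⟨hpp, -⟩ := hS p hp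
      obtain ⟨k, hk, -⟩ := hn0 p hp
      exact (hrow p hp).2 (h p hpp hp2 ⟨k, hk⟩)
    · subst ht
      rintro ⟨p, hpV⟩
      have hp : p ∈ S := by
        have h' := hpV
        unfold Vt at h'
        rw [if_neg (by simp)] at h'
        exact h'
      obtain ⟨hpp, hp2⟩ := hS p hp
      obtain ⟨k, hk, -⟩ := hn0 p hp
      exact (hrow p hp).2 (h p hpp hp2 ⟨k, hk⟩)

end Pool.Agent.N187.SLX.Sym
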