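import Pool.Agent.N637.SLX.Stm2
import Pool.Agent.N187.SLX.Cnt
import Pool.Agent.N187.SLX.Sym

/-!
# Project SLX (helper637), part RK4: the theorem of Rédei and Reichardt on the 4-rank

The classes of order dividing four are counted by the divisors `d` of the radical of the discriminant whose
local conditions hold (`count4`, from the genus theory of project FK and the theorem of Legendre); the rows of
the linear system are the local conditions at the odd primes (`Sym.lk_iff`, by quadratic reciprocity), the row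
at `2` is a consequence of the others.
-/

set_option autoImplicit false

open scoped Classical

namespace Pool.Agent.N187.SLX

open Finset NumberField
open Pool.Agent.N637.SLX
open Pool.Agent.N916.GB (Po Vt sy)
open Pool.Agent.Y755.FK (Rn)
open Pool.Agent.Y473.FK.Alg (Rep)

theorem nr_eq (p n : ℕ) : Pool.Agent.Y703.CQ.nr p n = Sym.nr p n := by
  unfold Pool.Agent.Y703.CQ.nr Sym.nr
  split_ifs <;> rfl

theorem uu_eq (p : ℕ) : Pool.Agent.N973.ND.uu p = Sym.uu p := rfl

theorem Vt_eq (t : Bool) (S : Finset ℕ) : Vt t S = Sym.Vt t S := by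
  unfold Vt Sym.Vt
  split_ifs
  · congr
  · rfl

theorem sy_eq (r s : ZMod 2) (q p : ℕ) : sy r s q p = Sym.sy r s q p := by
  unfold sy Sym.sy
  rw [nr_eq, nr_eq, uu_eq]

theorem cd_eq (m d : ℕ) : Cd m d ↔ Sym.Cd m d := Iff.rfl

theorem lk_eq {V : Type} [Fintype V] (N : V → V → ZMod 2) (y : V → ZMod 2) :
    IsLk N y ↔ Sym.IsLk N y := Iff.rfl

/-- SLX-RK4 -/
theorem t_RK4 : S_RK4 := by
  intro t r s S m h K _ _ h2 hz
  have hS : ∀ p ∈ S, p.Prime ∧ p ≠ 2 := h.po
  obtain ⟨hus, hodd⟩ := Sym.uu_sum hS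
  have hV : ∀ p ∈ Sym.Vt t S, p.Prime := Sym.prime_Vt hS
  -- the type of the discriminant
  have key : m = -((Sym.nn t r S : ℕ) : ℤ) ∧ Rn (Sym.nn t r S) = ∏ p ∈ Sym.Vt t S, p ∧
      ∑ q ∈ S, Sym.uu q = 1 + if t = true then s else 0 := by
    have hVt : ∏ p ∈ Sym.Vt true S, p = 2 * ∏ p ∈ S, p := by
      unfold Sym.Vt
      rw [if_pos rfl, Finset.prod_insert (Sym.two_not hS)]
    have hVf : ∏ p ∈ Sym.Vt false S, p = ∏ p ∈ S, p := by
      unfold Sym.Vt
      rw [if_neg (by simp)]
    rw [hus]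
    set b : ℕ := ∏ p ∈ S, p with hb
    rcases h.ty with ⟨rfl, rfl, hm, h4⟩ | ⟨rfl, rfl, rfl, hm, h4⟩ | ⟨rfl, rfl, rfl, hm, h4⟩ |
      ⟨rfl, rfl, rfl, hm, h4⟩
    · have hn : Sym.nn false r S = b := by
        unfold Sym.nn
        rw [if_neg (by simp), one_mul]
      have hb4 : b % 4 = 3 := by omega
      rw [hn, hVf]
      refine ⟨hm, ?_, ?_⟩
      · unfold Rn
        rw [if_neg (by omega)]
      · unfold Sym.uu
        rw [if_pos hb4, if_neg (by simp), add_zero]
    · have hn : Sym.nn true 0 S = b := by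
        unfold Sym.nn
        rw [if_neg (by rintro ⟨-, h⟩; exact absurd h (by decide)), one_mul]
      have hb4 : b % 4 = 1 := by omega
      rw [hn, hVt]
      refine ⟨hm, ?_, ?_⟩
      · unfold Rn
        rw [if_pos hb4]
      · unfold Sym.uu
        rw [if_neg (by omega), if_pos rfl]
        decide
    · have hn : Sym.nn true 1 S = 2 * b := by
        unfold Sym.nn
        rw [if_pos ⟨rfl, rfl⟩]
      rw [hn, hVt]
      refine ⟨by rw [hm, ← hb]; push_cast; ring, ?_, ?_⟩
      · unfold Rn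
        rw [if_neg (by omega)]
      · unfold Sym.uu
        rw [if_neg (by omega), if_pos rfl]
        decide
    · have hn : Sym.nn true 1 S = 2 * b := by
        unfold Sym.nn
        rw [if_pos ⟨rfl, rfl⟩]
      rw [hn, hVt]
      refine ⟨by rw [hm, ← hb]; push_cast; ring, ?_, ?_⟩
      · unfold Rn
        rw [if_neg (by omega)]
      · unfold Sym.uu
        rw [if_pos h4, if_pos rfl, add_zero]
  obtain ⟨hm, hR, hu⟩ := key
  set n : ℕ := Sym.nn t r S with hn
  have hnR : n ∣ Rn n := by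
    unfold Rn
    split_ifs
    · exact dvd_mul_left _ _
    · exact dvd_rfl
  have hsq : Squarefree n := by
    refine Squarefree.squarefree_of_dvd hnR ?_
    rw [hR]
    exact Sym.sqf hV
  have hc := count4 K h2 n hsq (by
    obtain ⟨z, hz⟩ := hz
    refine ⟨z, ?_⟩
    rw [hz, hm]
    push_cast
    rfl)
  rw [hc]
  congr 1
  have hcard := Sym.card_bij' hV (fun y => IsLk (fun q p : {x // x ∈ Sym.Vt t S} =>
    Sym.sy r s q.1 p.1) y) (Rep n) (fun y => by
      rw [lk_eq, Sym.lk_iff hS hu y, rep_iff hsq (by rw [hR]; exact Sym.Dy_dvd _ _), cd_eq])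
  rw [hR]
  refine hcard.symm.trans ?_
  have hVV := Vt_eq t S
  have hN : NS t r s S = fun q p : {x // x ∈ Vt t S} => Sym.sy r s q.1 p.1 := by
    funext q p
    exact sy_eq r s q.1 p.1
  rw [hN]
  generalize Sym.Vt t S = V at *
  subst hVV
  congr

end Pool.Agent.N187.SLX
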